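import Pool.Agent.H.MP_05fa0d_nt.B

set_option autoImplicit false

namespace Pool.Agent.Results.MP_05fa0d_nt.LowDisc

open Polynomial

variable {F : Type} [Field F] {q : ℕ} [NeZero q]

/-- a polynomial in `t` as a Laurent series in `1/t` (the series variable is `1/t`) -/
noncomputable def emb (p : F[X]) : LaurentSeries F :=
  aeval (HahnSeries.single (-1 : ℤ) (1 : F) : LaurentSeries F) p

/-- the fractional part -/
noncomputable def fr (x : LaurentSeries F) : LaurentSeries F :=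
  x - emb (∑ i ∈ Finset.range ((-x.order).toNat + 1), monomial i (x.coeff (-(i : ℤ))))

open Classical in
/-- the absolute value -/
noncomputable def ab (q : ℕ) (x : LaurentSeries F) : ℝ :=
  if x = 0 then 0 else (q : ℝ) ^ (-x.order)

/-- the polynomial `n(t)` -/
noncomputable def np (E : F ≃ Fin q) (n : ℕ) : F[X] :=
  ∑ i ∈ Finset.range n, monomial i (E.symm (Fin.ofNat q (n / q ^ i)))

/-- evaluation of a polynomial -/
noncomputable def evP (E : F ≃ Fin q) (b : F[X]) : ℕ :=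
  ∑ j ∈ Finset.range (b.natDegree + 1), (E (b.coeff j) : ℕ) * q ^ j

/-- evaluation of a fractional part -/
noncomputable def evS (E : F ≃ Fin q) (x : LaurentSeries F) : ℝ :=
  ∑' i : ℕ, ((E (x.coeff ((i : ℤ) + 1)) : ℕ) : ℝ) / (q : ℝ) ^ (i + 1)

/-- digital Kronecker sequence -/
noncomputable def kr (E : F ≃ Fin q) (Θ : LaurentSeries F) (n : ℕ) : ℝ :=
  evS E (fr (emb (np E n) * Θ))

/-- digital van der Corput sequence -/
noncomputable def vdc (E : F ≃ Fin q) (B : F[X]) (n : ℕ) : ℝ :=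
  ∑' i : ℕ, (evP E (np E n / B ^ i % B) : ℝ) / ((q : ℝ) ^ B.natDegree) ^ (i + 1)

open Classical in
/-- star discrepancy -/
noncomputable def disc (E : F ≃ Fin q) (Θ : LaurentSeries F) (P : F[X]) (N : ℕ) : ℝ :=
  sSup {d | ∃ a ∈ Set.Icc (0 : ℝ) 1, ∃ b ∈ Set.Icc (0 : ℝ) 1,
    d = |(((Finset.range N).filter fun n : ℕ =>
      kr E Θ n ∈ Set.Ico 0 a ∧ vdc E P n ∈ Set.Ico 0 b).card : ℝ) / N - a * b|}

omit [NeZero q] in
lemma fr_coeff (x : LaurentSeries F) (n : ℤ) : (fr x).coeff n = if n ≤ 0 then 0 else x.coeff n := by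
  change (x - Pool.Agent.H.MP_81ecdf_nt.emb (Pool.Agent.H.MP_81ecdf_nt.fl x)).coeff n = _
  rw [HahnSeries.coeff_sub, Pool.Agent.H.MP_81ecdf_nt.emb_coeff]
  split_ifs with h
  · rw [Pool.Agent.H.MP_81ecdf_nt.fl_coeff, show -(((-n).toNat : ℕ) : ℤ) = n by omega, sub_self]
  · rw [sub_zero]

open Classical Pool.Agent.H.MP_05fa0d_nt in
theorem result (F : Type) [Field F] (q : ℕ) [NeZero q] (E : F ≃ Fin q) (hE : E 0 = 0)
    (P : F[X]) (hP : Irreducible P) (Θ : LaurentSeries F)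
    (h : ∃ c : ℝ, 0 < c ∧ ∀ N : F[X], N ≠ 0 → ∀ k : ℕ,
      c ≤ ab q (emb N) * ab q (fr (emb (N * P ^ k) * Θ))) :
    ∃ C : ℝ, ∀ N : ℕ, 2 ≤ N →
      (∀ a ∈ Set.Icc (0 : ℝ) 1, ∀ b ∈ Set.Icc (0 : ℝ) 1,
        |(((Finset.range N).filter fun n : ℕ =>
          kr E Θ n ∈ Set.Ico 0 a ∧ vdc E P n ∈ Set.Ico 0 b).card : ℝ) / N - a * b|
          ≤ C * Real.log N ^ 2 / N) ∧
      disc E Θ P N ≤ C * Real.log N ^ 2 / N := by
  obtain ⟨c, hc, h⟩ := h
  have hq := one_lt_q E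
  have hq' : (1 : ℝ) < q := by exact_mod_cast hq
  obtain ⟨s, hs⟩ := exists_pow_lt_of_lt_one hc (inv_lt_one_of_one_lt₀ hq')
  obtain ⟨C, hC⟩ := mainF hE hP.natDegree_pos (Θ := Θ) (c := s) (fun j u hu => by
    have h1 := h u hu j
    have h2 : emb (u * P ^ j) * Θ = Pool.Agent.H.MP_81ecdf_nt.emb u *
        (Pool.Agent.H.MP_81ecdf_nt.emb (P ^ j) * Θ) := by
      rw [← mul_assoc, ← Pool.Agent.H.MP_81ecdf_nt.emb_mul]; rfl
    rw [h2] at h1
    set x := Pool.Agent.H.MP_81ecdf_nt.emb u * (Pool.Agent.H.MP_81ecdf_nt.emb (P ^ j) * Θ)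
    have h3 : fr x ≠ 0 := by
      intro h4
      rw [h4, ab, ab, if_pos rfl, mul_zero] at h1
      linarith
    have h4 : emb u ≠ 0 := fun h5 => hu (Pool.Agent.H.MP_81ecdf_nt.emb_eq_zero h5)
    have h5 : (fr x).coeff (fr x).order ≠ 0 := HahnSeries.coeff_order_eq_zero.not.mpr h3
    have h6 : (emb u).coeff (emb u).order ≠ 0 := HahnSeries.coeff_order_eq_zero.not.mpr h4
    rw [fr_coeff] at h5
    have h7 : -(emb u).order ≤ u.natDegree := by
      by_contra h8
      apply h6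
      have := Pool.Agent.H.MP_81ecdf_nt.emb_coeff u (emb u).order
      rw [if_pos (by omega), coeff_eq_zero_of_natDegree_lt (by omega)] at this
      exact this
    rw [ab, ab, if_neg h3, if_neg h4, ← zpow_add₀ (by positivity)] at h1
    have h8 := hs.trans_le h1
    rw [inv_pow, ← zpow_natCast, ← zpow_neg, zpow_lt_zpow_iff_right₀ hq'] at h8
    split_ifs at h5 with h9
    · exact absurd rfl h5
    refine ⟨((fr x).order - 1).toNat, by omega, ?_⟩
    rwa [show ((((fr x).order - 1).toNat : ℕ) : ℤ) + 1 = (fr x).order by omega])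
  refine ⟨C, fun N hN => ?_⟩
  have hN0 : (0 : ℝ) < N := by exact_mod_cast (by omega : 0 < N)
  have key : ∀ a ∈ Set.Icc (0 : ℝ) 1, ∀ b ∈ Set.Icc (0 : ℝ) 1,
        |(((Finset.range N).filter fun n : ℕ =>
          kr E Θ n ∈ Set.Ico 0 a ∧ vdc E P n ∈ Set.Ico 0 b).card : ℝ) / N - a * b|
          ≤ C * Real.log N ^ 2 / N := by
    intro a ha b hb
    have h1 := hC N hN a b ha.1 ha.2 hb.1 hb.2
    rw [le_div_iff₀ hN0, ← abs_of_pos hN0, ← abs_mul, abs_of_pos hN0, sub_mul,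
      div_mul_cancel₀ _ hN0.ne', Finset.card_filter]
    refine le_of_eq_of_le ?_ h1
    congr 2
    push_cast
    refine Finset.sum_congr rfl fun n _ => ?_
    have e1 : kr E Θ n = R q (dg E (Pool.Agent.H.MP_81ecdf_nt.emb
        (Pool.Agent.H.MP_05fa0d_nt.np E n) * Θ)) := by
      refine tsum_congr fun i => ?_
      rw [fr_coeff, if_neg (by omega)]; rfl
    have e2 : vdc E P n = V E P (Pool.Agent.H.MP_05fa0d_nt.np E n) := by
      refine tsum_congr fun i => ?_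
      rw [Nat.cast_pow]; rfl
    have h2 : 0 ≤ kr E Θ n := tsum_nonneg fun i => by positivity
    have h3 : 0 ≤ vdc E P n := tsum_nonneg fun i => by positivity
    rw [← e1, ← e2]
    simp only [Set.mem_Ico, h2, h3, true_and]
    by_cases c1 : kr E Θ n < a <;> by_cases c2 : vdc E P n < b <;> simp [c1, c2]
  refine ⟨key, csSup_le ⟨_, 0, by simp, 0, by simp, rfl⟩ ?_⟩
  rintro _ ⟨a, ha, b, hb, rfl⟩
  exact key a ha b hb

end Pool.Agent.Results.MP_05fa0d_nt.LowDisc
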